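import Mathlib
import Pool.Agent.Helper246.BlumLiou

set_option autoImplicit false

namespace H654.Bl

open Polynomial Filter Topology Pool.Agent.Helper246.Blum

/-- radial comparison -/
theorem radial (f g : ℝ → ℂ) (f' g' : ℂ) (r : ℝ) (hf : HasDerivAt f f' r) (hg : HasDerivAt g g' r)
    (hg0 : g r ≠ 0) (h : ∀ᶠ t in 𝓝 r, ‖f t‖ ≤ ‖g t‖) (he : ‖f r‖ = ‖g r‖) :
    (f' / f r).re = (g' / g r).re := by
  have hf0 : f r ≠ 0 := by
    rw [← norm_ne_zero_iff, he, norm_ne_zero_iff]; exact hg0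
  have h1 := hasDerivAt_log_norm f f' r hf hf0
  have h2 := hasDerivAt_log_norm g g' r hg hg0
  have h3 := h1.sub h2
  have h4 : IsLocalMax (fun s => Real.log ‖f s‖ - Real.log ‖g s‖) r := by
    have hfn : ∀ᶠ t in 𝓝 r, f t ≠ 0 := hf.continuousAt.eventually_ne hf0
    filter_upwards [h, hfn] with t ht ht0
    rw [he, sub_self]
    have : Real.log ‖f t‖ ≤ Real.log ‖g t‖ := Real.log_le_log (norm_pos_iff.2 ht0) ht
    linarith
  have h5 := h4.hasDerivAt_eq_zero h3
  linarith

theorem hasDeriv_lin (q : ℂ[X]) (e : ℂ) (r : ℝ) :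
    HasDerivAt (fun s : ℝ => q.eval (e * s)) ((derivative q).eval (e * r) * e) r := by
  have h1 : HasDerivAt (fun s : ℝ => e * (s : ℂ)) e r := by
    have := (Complex.ofRealCLM.hasDerivAt (x := r)).const_mul e
    simpa using this
  exact (q.hasDerivAt (e * r)).comp r h1

theorem hasDeriv_ang (q : ℂ[X]) (w : ℂ) :
    HasDerivAt (fun s : ℝ => q.eval (w * Complex.exp (s * Complex.I)))
      ((derivative q).eval w * (w * Complex.I)) 0 := by
  have h1 : HasDerivAt (fun s : ℝ => w * Complex.exp ((s : ℂ) * Complex.I)) (w * Complex.I) 0 := by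
    have h2 : HasDerivAt (fun s : ℝ => (s : ℂ) * Complex.I) Complex.I 0 := by
      have := (Complex.ofRealCLM.hasDerivAt (x := (0:ℝ))).mul_const Complex.I
      simpa using this
    have h3 := h2.cexp.const_mul w
    simpa using h3
  have h4 : HasDerivAt (fun z => q.eval z) ((derivative q).eval w)
      ((fun s : ℝ => w * Complex.exp ((s : ℂ) * Complex.I)) 0) := by
    have : w * Complex.exp (((0:ℝ) : ℂ) * Complex.I) = w := by simp
    simp only [this]
    exact q.hasDerivAt w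
  exact h4.comp (0:ℝ) h1

theorem angular (q : ℂ[X]) (w : ℂ) (hq : q.eval w ≠ 0)
    (h : ∀ z, ‖z‖ = ‖w‖ → ‖q.eval z‖ ≤ ‖q.eval w‖) :
    (w * (derivative q).eval w / q.eval w).im = 0 := by
  have h0 : w * Complex.exp (((0:ℝ) : ℂ) * Complex.I) = w := by simp
  have h1 := radial (fun s : ℝ => q.eval (w * Complex.exp (s * Complex.I))) (fun _ => q.eval w)
    _ 0 0 (hasDeriv_ang q w) (hasDerivAt_const _ _) hq
    (Eventually.of_forall fun t => h _ (by
      rw [norm_mul, Complex.norm_exp_ofReal_mul_I, mul_one])) (by simp only [h0])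
  simp only [h0, zero_div, Complex.zero_re] at h1
  have h2 : (derivative q).eval w * (w * Complex.I) / q.eval w
      = (w * (derivative q).eval w / q.eval w) * Complex.I := by ring
  rw [h2, Complex.mul_I_re] at h1
  linarith

theorem map_conj_eval (q : ℂ[X]) (z : ℂ) :
    (q.map (starRingEnd ℂ)).eval (starRingEnd ℂ z) = starRingEnd ℂ (q.eval z) := by
  rw [eval_map, eval₂_at_apply]

theorem an (p q : ℂ[X]) (r : ℝ) (hr : 0 < r) (e : ℂ) (he : ‖e‖ = 1) (hp : p.eval (r : ℂ) ≠ 0)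
    (h1 : ∀ᶠ ρ : ℝ in 𝓝 r, ‖q.eval (e * ρ)‖ ≤ ‖p.eval (ρ : ℂ)‖)
    (h1e : ‖q.eval (e * r)‖ = ‖p.eval (r : ℂ)‖)
    (h2 : ∀ z, ‖z‖ = r → ‖q.eval z‖ ≤ ‖q.eval (e * r)‖)
    (h3 : ∀ z, ‖z‖ = r → ‖p.eval z‖ ≤ ‖p.eval (r : ℂ)‖) :
    (e * r) * (derivative q).eval (e * r) * p.eval (r : ℂ)
      = r * (derivative p).eval (r : ℂ) * q.eval (e * r) ∧
    ((r : ℂ) / e) * (derivative (q.map (starRingEnd ℂ))).eval ((r : ℂ) / e) * p.eval (r : ℂ)
      = r * (derivative p).eval (r : ℂ) * (q.map (starRingEnd ℂ)).eval ((r : ℂ) / e) := by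
  have hq : q.eval (e * r) ≠ 0 := by
    rw [← norm_ne_zero_iff, h1e, norm_ne_zero_iff]; exact hp
  have hrc : (r : ℂ) ≠ 0 := by exact_mod_cast hr.ne'
  have he0 : e ≠ 0 := by intro h; rw [h, norm_zero] at he; exact zero_ne_one he
  have a1 := radial (fun s : ℝ => q.eval (e * s)) (fun s : ℝ => p.eval (1 * (s : ℂ))) _ _ r
    (hasDeriv_lin q e r) (hasDeriv_lin p 1 r) (by simpa using hp) (by simpa using h1)
    (by simpa using h1e)
  simp only [one_mul, mul_one] at a1
  have a2 := angular q (e * r) hq (fun z hz => h2 z (by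
    rw [hz, norm_mul, he, one_mul, Complex.norm_real, Real.norm_of_nonneg hr.le]))
  have a3 := angular p (r : ℂ) hp (fun z hz => h3 z (by
    rw [hz, Complex.norm_real, Real.norm_of_nonneg hr.le]))
  set κ : ℂ := (e * r) * (derivative q).eval (e * r) / q.eval (e * r) with hκ
  set μ : ℂ := r * (derivative p).eval (r : ℂ) / p.eval (r : ℂ) with hμ
  have b1 : κ.re = μ.re := by
    have e1 : κ = (r : ℂ) * ((derivative q).eval (e * r) * e / q.eval (e * r)) := by
      rw [hκ]; ring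
    have e2 : μ = (r : ℂ) * ((derivative p).eval (r : ℂ) / p.eval (r : ℂ)) := by
      rw [hμ]; ring
    rw [e1, e2, Complex.re_ofReal_mul, Complex.re_ofReal_mul, a1]
  have b2 : κ = μ := Complex.ext b1 (a2.trans a3.symm)
  have b3 : starRingEnd ℂ κ = κ := Complex.conj_eq_iff_im.2 a2
  have c1 : (e * r) * (derivative q).eval (e * r) = κ * q.eval (e * r) := by
    rw [hκ]; field_simp
  have c2 : r * (derivative p).eval (r : ℂ) = μ * p.eval (r : ℂ) := by
    rw [hμ]; field_simp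
  refine ⟨by rw [c1, c2, b2]; ring, ?_⟩
  have hce : (r : ℂ) / e = starRingEnd ℂ (e * r) := by
    rw [map_mul, Complex.conj_ofReal]
    have : starRingEnd ℂ e = e⁻¹ := by
      rw [Complex.inv_def, Complex.normSq_eq_norm_sq, he]; simp
    rw [this]; field_simp
  rw [hce, derivative_map, map_conj_eval, map_conj_eval, ← map_mul, c1, map_mul, b3, c2, b2]
  ring

end H654.Bl
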