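import Mathlib

set_option autoImplicit false

namespace H654.Bl

open Polynomial

/-- evaluation: inner variable `r`, outer variable `e` -/
noncomputable def ev (r e : ℂ) : ℂ[X][X] →+* ℂ := evalEvalRingHom r e

theorem ev_C (r e : ℂ) (f : ℂ[X]) : ev r e (C f) = f.eval r := by
  simp [ev, evalEvalRingHom]

theorem ev_monomial (r e : ℂ) (n : ℕ) (f : ℂ[X]) : ev r e (monomial n f) = f.eval r * e ^ n := by
  simp [ev, evalEvalRingHom, ← C_mul_X_pow_eq_monomial]

theorem ev_eq_sum (r e : ℂ) (F : ℂ[X][X]) :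
    ev r e F = ∑ i ∈ Finset.range (F.natDegree + 1), (F.coeff i).eval r * e ^ i := by
  conv_lhs => rw [F.as_sum_range]
  rw [map_sum]
  exact Finset.sum_congr rfl fun i _ => ev_monomial r e i _

theorem swap_coeff (F : ℂ[X][X]) (i j : ℕ) :
    ((Bivariate.swap F).coeff j).coeff i = (F.coeff i).coeff j := by
  induction F using Polynomial.induction_on' with
  | add p q hp hq => simp only [map_add, coeff_add, hp, hq]
  | monomial n f =>
    induction f using Polynomial.induction_on' with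
    | add p q hp hq => simp only [map_add, coeff_add, hp, hq]
    | monomial m c =>
      rw [Bivariate.swap_monomial_monomial]
      simp only [coeff_monomial]
      split_ifs <;> simp_all [coeff_monomial]

theorem swap_ne (F : ℂ[X][X]) (h : F ≠ 0) : Bivariate.swap F ≠ 0 := by
  intro h2
  apply h
  have := congrArg Bivariate.swap h2
  rwa [Bivariate.swap_swap_apply, map_zero] at this

theorem nd_le (F : ℂ[X][X]) (i : ℕ) : (F.coeff i).natDegree ≤ (Bivariate.swap F).natDegree := by
  rw [natDegree_le_iff_coeff_eq_zero]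
  intro N hN
  rw [← swap_coeff, coeff_eq_zero_of_natDegree_lt hN, coeff_zero]

theorem nd_ge (F : ℂ[X][X]) (D : ℕ) (h : ∀ i, (F.coeff i).natDegree ≤ D) :
    (Bivariate.swap F).natDegree ≤ D := by
  rw [natDegree_le_iff_coeff_eq_zero]
  intro N hN
  ext i
  rw [swap_coeff, coeff_zero]
  exact coeff_eq_zero_of_natDegree_lt (lt_of_le_of_lt (h i) hN)

theorem nt_le (F : ℂ[X][X]) (i : ℕ) (hi : F.coeff i ≠ 0) :
    (Bivariate.swap F).natTrailingDegree ≤ (F.coeff i).natTrailingDegree := by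
  apply natTrailingDegree_le_of_ne_zero
  intro h
  have h2 := swap_coeff F i (F.coeff i).natTrailingDegree
  rw [h, coeff_zero] at h2
  exact hi (trailingCoeff_eq_zero.1 h2.symm)

theorem nt_ge (F : ℂ[X][X]) (K : ℕ) (hF : F ≠ 0)
    (h : ∀ i, F.coeff i ≠ 0 → K ≤ (F.coeff i).natTrailingDegree) :
    K ≤ (Bivariate.swap F).natTrailingDegree := by
  apply le_natTrailingDegree (swap_ne F hF)
  intro m hm
  ext i
  rw [swap_coeff, coeff_zero]
  by_cases h0 : F.coeff i = 0
  · rw [h0, coeff_zero]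
  · exact coeff_eq_zero_of_lt_natTrailingDegree (lt_of_lt_of_le hm (h i h0))

/-- a polynomial whose only possible root is `0` -/
theorem only_zero (f : ℂ[X]) (hf : f ≠ 0) (h : ∀ r, f.eval r = 0 → r = 0) :
    ∃ (u : ℂ) (a : ℕ), f = C u * X ^ a := by
  obtain ⟨G, hG, hGn⟩ := Polynomial.exists_eq_pow_rootMultiplicity_mul_and_not_dvd f hf 0
  rw [C_0, sub_zero] at hG hGn
  have hG0 : ∀ r, G.eval r ≠ 0 := by
    intro r hr
    have : r = 0 := h r (by rw [hG, eval_mul, hr, mul_zero])
    rw [this] at hr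
    exact hGn (X_dvd_iff.2 (by rw [coeff_zero_eq_eval_zero]; exact hr))
  have hd : G.degree = 0 := by
    by_contra hd
    obtain ⟨r, hr⟩ := IsAlgClosed.exists_root G hd
    exact hG0 r hr
  rw [eq_C_of_degree_eq_zero hd] at hG
  exact ⟨_, _, by rw [hG]; ring⟩

theorem alg (A B F : ℂ[X][X]) (hFA : F ∣ A) (hFB : F ∣ B) (hA : A ≠ 0) (hB : B ≠ 0)
    (hAd : ∀ i, (A.coeff i).natDegree ≤ A.leadingCoeff.natDegree)
    (hBd : ∀ i, B.coeff i ≠ 0 → B.leadingCoeff.natTrailingDegree ≤ (B.coeff i).natTrailingDegree)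
    (hcop : ∀ r : ℂ, r ≠ 0 → A.leadingCoeff.eval r = 0 → B.leadingCoeff.eval r = 0 → False) :
    ∃ a : ℕ, ∀ i, ∃ t : ℂ, F.coeff i = C t * X ^ a := by
  obtain ⟨A1, hA1⟩ := hFA
  obtain ⟨B1, hB1⟩ := hFB
  have hF0 : F ≠ 0 := by rintro rfl; exact hA (by rw [hA1, zero_mul])
  have hA10 : A1 ≠ 0 := by rintro rfl; exact hA (by rw [hA1, mul_zero])
  have hB10 : B1 ≠ 0 := by rintro rfl; exact hB (by rw [hB1, mul_zero])
  have lA : A.leadingCoeff = F.leadingCoeff * A1.leadingCoeff := by rw [hA1, leadingCoeff_mul]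
  have lB : B.leadingCoeff = F.leadingCoeff * B1.leadingCoeff := by rw [hB1, leadingCoeff_mul]
  have lF0 : F.leadingCoeff ≠ 0 := leadingCoeff_ne_zero.2 hF0
  have lA0 : A1.leadingCoeff ≠ 0 := leadingCoeff_ne_zero.2 hA10
  have lB0 : B1.leadingCoeff ≠ 0 := leadingCoeff_ne_zero.2 hB10
  obtain ⟨u, a, hu⟩ := only_zero F.leadingCoeff lF0 (by
    intro r hr
    by_contra h0
    exact hcop r h0 (by rw [lA, eval_mul, hr, zero_mul]) (by rw [lB, eval_mul, hr, zero_mul]))
  have hu0 : u ≠ 0 := by rintro rfl; exact lF0 (by rw [hu, C_0, zero_mul])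
  have hnd : F.leadingCoeff.natDegree = a := by rw [hu]; exact natDegree_C_mul_X_pow a u hu0
  have hnt : F.leadingCoeff.natTrailingDegree = a := by
    rw [hu, C_mul_X_pow_eq_monomial]
    exact natTrailingDegree_monomial hu0
  -- degrees
  have e1 : (Bivariate.swap F).natDegree ≤ a := by
    have h1 : (Bivariate.swap A).natDegree ≤ A.leadingCoeff.natDegree := nd_ge A _ hAd
    have h2 : (Bivariate.swap A).natDegree
        = (Bivariate.swap F).natDegree + (Bivariate.swap A1).natDegree := by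
      rw [hA1, map_mul, natDegree_mul (swap_ne F hF0) (swap_ne A1 hA10)]
    have h3 : A.leadingCoeff.natDegree = a + A1.leadingCoeff.natDegree := by
      rw [lA, natDegree_mul lF0 lA0, hnd]
    have h4 : A1.leadingCoeff.natDegree ≤ (Bivariate.swap A1).natDegree := nd_le A1 _
    omega
  have e2 : a ≤ (Bivariate.swap F).natTrailingDegree := by
    have h1 : B.leadingCoeff.natTrailingDegree ≤ (Bivariate.swap B).natTrailingDegree :=
      nt_ge B _ hB hBd
    have h2 : (Bivariate.swap B).natTrailingDegree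
        = (Bivariate.swap F).natTrailingDegree + (Bivariate.swap B1).natTrailingDegree := by
      rw [hB1, map_mul, natTrailingDegree_mul (swap_ne F hF0) (swap_ne B1 hB10)]
    have h3 : B.leadingCoeff.natTrailingDegree = a + B1.leadingCoeff.natTrailingDegree := by
      rw [lB, natTrailingDegree_mul lF0 lB0, hnt]
    have h4 : (Bivariate.swap B1).natTrailingDegree ≤ B1.leadingCoeff.natTrailingDegree :=
      nt_le B1 _ lB0
    omega
  refine ⟨a, fun i => ⟨(F.coeff i).coeff a, ?_⟩⟩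
  ext m
  rw [coeff_C_mul, coeff_X_pow]
  by_cases hm : m = a
  · rw [if_pos hm, mul_one, hm]
  · rw [if_neg hm, mul_zero]
    by_cases h0 : F.coeff i = 0
    · rw [h0, coeff_zero]
    · rcases lt_or_gt_of_ne hm with h | h
      · apply coeff_eq_zero_of_lt_natTrailingDegree
        exact lt_of_lt_of_le h (e2.trans (nt_le F i h0))
      · apply coeff_eq_zero_of_natDegree_lt
        exact lt_of_le_of_lt ((nd_le F i).trans e1) h

/-- two bivariate polynomials without common factor have finitely many common zeros -/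
theorem irr' (K : Type) [Field K] [Algebra ℂ[X] K] [IsFractionRing ℂ[X] K]
    (F B : ℂ[X][X]) (hF : Irreducible F) (hd : F.natDegree ≠ 0) (hFB : ¬ F ∣ B) :
    ∃ D : ℂ[X], D ≠ 0 ∧ ∀ r e : ℂ, ev r e F = 0 → ev r e B = 0 → D.eval r = 0 := by
  classical
  have hprim : F.IsPrimitive := hF.isPrimitive hd
  let φ : ℂ[X] →+* K := algebraMap ℂ[X] K
  have hφ : Function.Injective φ := IsFractionRing.injective ℂ[X] K
  have hFK : Irreducible (F.map φ) :=
    (hprim.irreducible_iff_irreducible_map_fraction_map (K := K)).1 hF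
  have hnd : ¬ (F.map φ ∣ B.map φ) := by
    rintro ⟨g, hg⟩
    have h1 : F.map φ * g ∈ lifts φ := by rw [← hg]; exact ⟨B, rfl⟩
    have h2 : g ∈ lifts φ := (hprim.map_mul_mem_lifts_iff (K := K)).1 h1
    obtain ⟨g', hg'⟩ := h2
    apply hFB
    refine ⟨g', map_injective φ hφ ?_⟩
    rw [Polynomial.map_mul, hg]
    congr 1
    exact hg'.symm
  obtain ⟨u, v, huv⟩ := (hFK.coprime_iff_not_dvd).2 hnd
  obtain ⟨⟨d1, hd1⟩, hu⟩ := IsLocalization.integerNormalization_map_to_map (nonZeroDivisors ℂ[X]) u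
  obtain ⟨⟨d2, hd2⟩, hv⟩ := IsLocalization.integerNormalization_map_to_map (nonZeroDivisors ℂ[X]) v
  set U := IsLocalization.integerNormalization (nonZeroDivisors ℂ[X]) u
  set V := IsLocalization.integerNormalization (nonZeroDivisors ℂ[X]) v
  have hkey : C d2 * U * F + C d1 * V * B = C (d1 * d2) := by
    apply map_injective φ hφ
    simp only [Polynomial.map_add, Polynomial.map_mul, Polynomial.map_C, map_mul]
    have hu' : U.map φ = C (φ d1) * u := by
      rw [hu, Algebra.smul_def]; rfl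
    have hv' : V.map φ = C (φ d2) * v := by
      rw [hv, Algebra.smul_def]; rfl
    rw [hu', hv']
    have : C (φ d2) * (C (φ d1) * u) * F.map φ + C (φ d1) * (C (φ d2) * v) * B.map φ
        = C (φ d1) * C (φ d2) * (u * F.map φ + v * B.map φ) := by ring
    rw [this, huv, mul_one]
  refine ⟨d1 * d2, mul_ne_zero (nonZeroDivisors.ne_zero hd1) (nonZeroDivisors.ne_zero hd2), ?_⟩
  intro r e h1 h2
  have h3 := congrArg (ev r e) hkey
  rw [ev_C, map_add, map_mul, map_mul, map_mul, map_mul, h1, h2, mul_zero, mul_zero, add_zero] at h3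
  exact h3.symm

theorem irr (F B : ℂ[X][X]) (hF : Irreducible F) (hd : F.natDegree ≠ 0) (hFB : ¬ F ∣ B) :
    ∃ D : ℂ[X], D ≠ 0 ∧ ∀ r e : ℂ, ev r e F = 0 → ev r e B = 0 → D.eval r = 0 :=
  irr' (FractionRing ℂ[X]) F B hF hd hFB

theorem fac (A : ℂ[X][X]) (hA : A ≠ 0) : ∀ (S : Set (ℂ × ℂ)), (Prod.fst '' S).Infinite →
    (∀ x ∈ S, ev x.1 x.2 A = 0) → ∃ F, Irreducible F ∧ F ∣ A ∧ ∃ S' ⊆ S,
      (Prod.fst '' S').Infinite ∧ ∀ x ∈ S', ev x.1 x.2 F = 0 := by
  induction A using WfDvdMonoid.induction_on_irreducible with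
  | zero => exact absurd rfl hA
  | unit u hu =>
    intro S hS hz
    exfalso
    obtain ⟨y, x, hx, _⟩ := hS.nonempty
    exact (hu.map (ev x.1 x.2)).ne_zero (hz x hx)
  | mul a i ha hi IH =>
    intro S hS hz
    let S1 : Set (ℂ × ℂ) := {x ∈ S | ev x.1 x.2 i = 0}
    let S2 : Set (ℂ × ℂ) := {x ∈ S | ev x.1 x.2 a = 0}
    have hSS : S = S1 ∪ S2 := by
      ext x
      constructor
      · intro hx
        have h := hz x hx
        rw [map_mul] at h
        rcases mul_eq_zero.1 h with h | h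
        · exact Or.inl ⟨hx, h⟩
        · exact Or.inr ⟨hx, h⟩
      · rintro (h | h)
        · exact h.1
        · exact h.1
    rw [hSS, Set.image_union, Set.infinite_union] at hS
    rcases hS with hS | hS
    · exact ⟨i, hi, dvd_mul_right _ _, S1, fun x hx => hx.1, hS, fun x hx => hx.2⟩
    · obtain ⟨F, h1, h2, S', h3, h4, h5⟩ := IH ha S2 hS (fun x hx => hx.2)
      exact ⟨F, h1, h2.mul_left _, S', fun x hx => (h3 hx).1, h4, h5⟩

end H654.Bl
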