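import Mathlib
import Pool.Agent.H654.Bl.Biv

set_option autoImplicit false

namespace H654.Bl

open Polynomial

/-- `X^i (i V - X U)` -/
noncomputable def cc (U V : ℂ[X]) (i : ℕ) : ℂ[X] := X ^ i * (C (i : ℂ) * V - X * U)

noncomputable def AA (U V q : ℂ[X]) (n : ℕ) : ℂ[X][X] :=
  ∑ i ∈ Finset.range (n + 1), monomial i (C (q.coeff i) * cc U V i)

noncomputable def BB (U V q : ℂ[X]) (n : ℕ) : ℂ[X][X] :=
  ∑ i ∈ Finset.range (n + 1), monomial (n - i) (C (starRingEnd ℂ (q.coeff i)) * cc U V i)

theorem AA_coeff (U V q : ℂ[X]) (n i : ℕ) :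
    (AA U V q n).coeff i = if i ≤ n then C (q.coeff i) * cc U V i else 0 := by
  unfold AA
  simp only [finset_sum_coeff, coeff_monomial, Finset.sum_ite_eq', Finset.mem_range,
    Nat.lt_succ_iff]

theorem BB_coeff (U V q : ℂ[X]) (n j : ℕ) :
    (BB U V q n).coeff j = if j ≤ n then C (starRingEnd ℂ (q.coeff (n - j))) * cc U V (n - j)
      else 0 := by
  unfold BB
  simp only [finset_sum_coeff, coeff_monomial]
  split_ifs with h
  · rw [Finset.sum_eq_single (n - j)]
    · rw [if_pos (by omega)]
    · intro b hb hb2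
      rw [Finset.mem_range] at hb
      rw [if_neg (by omega)]
    · intro h2
      exact absurd (Finset.mem_range.2 (by omega)) h2
  · apply Finset.sum_eq_zero
    intro b hb
    rw [Finset.mem_range] at hb
    rw [if_neg (by omega)]

theorem ev_AA (U V q : ℂ[X]) (n : ℕ) (r e : ℂ) :
    ev r e (AA U V q n) = ∑ i ∈ Finset.range (n + 1),
      q.coeff i * (r ^ i * (i * V.eval r - r * U.eval r)) * e ^ i := by
  unfold AA cc
  rw [map_sum]
  refine Finset.sum_congr rfl fun i _ => ?_
  rw [ev_monomial]
  simp

theorem ev_BB (U V q : ℂ[X]) (n : ℕ) (r e : ℂ) :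
    ev r e (BB U V q n) = ∑ i ∈ Finset.range (n + 1),
      starRingEnd ℂ (q.coeff i) * (r ^ i * (i * V.eval r - r * U.eval r)) * e ^ (n - i) := by
  unfold BB cc
  rw [map_sum]
  refine Finset.sum_congr rfl fun i _ => ?_
  rw [ev_monomial]
  simp

theorem xderiv_eval (q : ℂ[X]) (n : ℕ) (hq : q.natDegree ≤ n) (x : ℂ) :
    x * (derivative q).eval x = ∑ i ∈ Finset.range (n + 1), (i : ℂ) * q.coeff i * x ^ i := by
  have h1 : x * (derivative q).eval x = (X * derivative q).eval x := by simp
  have h2 : (X * derivative q).natDegree < n + 1 := by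
    have := natDegree_mul_le (p := X) (q := derivative q)
    have h3 := natDegree_derivative_le q
    rw [natDegree_X] at this
    by_cases h0 : q.natDegree = 0
    · have : derivative q = 0 := derivative_of_natDegree_zero h0
      rw [this, mul_zero, natDegree_zero]; omega
    · omega
  rw [h1, eval_eq_sum_range' h2]
  refine Finset.sum_congr rfl fun i _ => ?_
  congr 1
  cases i with
  | zero => simp
  | succ k => rw [coeff_X_mul, coeff_derivative]; push_cast; ring

theorem eval_n (q : ℂ[X]) (n : ℕ) (hq : q.natDegree ≤ n) (x : ℂ) :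
    q.eval x = ∑ i ∈ Finset.range (n + 1), q.coeff i * x ^ i :=
  eval_eq_sum_range' (by omega) x

/-- `x q'(x) P - R q(x)` as a sum -/
theorem comb (q : ℂ[X]) (n : ℕ) (hq : q.natDegree ≤ n) (x P R : ℂ) :
    x * (derivative q).eval x * P - R * q.eval x
      = ∑ i ∈ Finset.range (n + 1), q.coeff i * x ^ i * (i * P - R) := by
  rw [xderiv_eval q n hq, eval_n q n hq, Finset.sum_mul, Finset.mul_sum, ← Finset.sum_sub_distrib]
  refine Finset.sum_congr rfl fun i _ => ?_
  ring

theorem prop_of_wr (p Q : ℂ[X]) (n : ℕ) (hn : 1 ≤ n) (hp : p.natDegree = n)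
    (hQ : Q.natDegree = n) (h : derivative Q * p = derivative p * Q) :
    ∃ c : ℂ, Q = C c * p := by
  have hp0 : p ≠ 0 := by rintro rfl; rw [natDegree_zero] at hp; omega
  have hlp : p.leadingCoeff ≠ 0 := leadingCoeff_ne_zero.2 hp0
  set c := Q.leadingCoeff / p.leadingCoeff with hc
  refine ⟨c, ?_⟩
  by_contra hne
  set D := Q - C c * p with hD
  have hD0 : D ≠ 0 := sub_ne_zero.2 hne
  have hwr : derivative D * p = derivative p * D := by
    rw [hD]
    simp only [derivative_sub, derivative_C_mul]
    linear_combination h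
  have hDn : D.natDegree < n := by
    have h1 : D.natDegree ≤ n := by
      refine (natDegree_sub_le _ _).trans (max_le hQ.le ?_)
      refine (natDegree_C_mul_le _ _).trans hp.le
    rcases lt_or_eq_of_le h1 with h2 | h2
    · exact h2
    · exfalso
      have h3 : D.coeff n = 0 := by
        rw [hD, coeff_sub, coeff_C_mul]
        have e1 : Q.coeff n = Q.leadingCoeff := by rw [leadingCoeff, hQ]
        have e2 : p.coeff n = p.leadingCoeff := by rw [leadingCoeff, hp]
        rw [e1, e2, hc]
        field_simp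
        ring
      have h4 : D.leadingCoeff = 0 := by rw [leadingCoeff, h2]; exact h3
      exact hD0 (leadingCoeff_eq_zero.1 h4)
  by_cases hd : D.natDegree = 0
  · have h1 : derivative D = 0 := derivative_of_natDegree_zero hd
    rw [h1, zero_mul] at hwr
    rcases mul_eq_zero.1 hwr.symm with h2 | h2
    · have := natDegree_eq_zero_of_derivative_eq_zero h2
      omega
    · exact hD0 h2
  · obtain ⟨d, hd'⟩ : ∃ d, D.natDegree = d + 1 := Nat.exists_eq_succ_of_ne_zero hd
    obtain ⟨m, hm⟩ : ∃ m, n = m + 1 := Nat.exists_eq_succ_of_ne_zero (by omega)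
    have e1 : (derivative D * p).coeff (d + n) = (derivative D).coeff d * p.coeff n := by
      apply coeff_mul_add_eq_of_natDegree_le
      · exact (natDegree_derivative_le D).trans (by omega)
      · exact hp.le
    have e2 : (derivative p * D).coeff (m + (d + 1)) = (derivative p).coeff m * D.coeff (d + 1) := by
      apply coeff_mul_add_eq_of_natDegree_le
      · exact (natDegree_derivative_le p).trans (by omega)
      · exact hd'.le
    rw [hwr, show d + n = m + (d + 1) by omega, e2, coeff_derivative, coeff_derivative, ← hm] at e1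
    have e3 : p.coeff n ≠ 0 := by rw [← hp]; exact hlp
    have e4 : D.coeff (d + 1) ≠ 0 := by rw [← hd']; exact leadingCoeff_ne_zero.2 hD0
    have e5 : ((m:ℂ) + 1) * (p.coeff n * D.coeff (d+1)) = ((d:ℂ) + 1) * (p.coeff n * D.coeff (d+1)) := by
      linear_combination e1
    have e6 := mul_right_cancel₀ (mul_ne_zero e3 e4) e5
    have e7 : (m : ℂ) = d := by linear_combination e6
    have e8 : m = d := by exact_mod_cast e7
    omega

theorem g_cc (p U V g : ℂ[X]) (hV : p = g * V) (hU : derivative p = g * U) (i : ℕ) :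
    g * cc U V i = X ^ i * (C (i : ℂ) * p - X * derivative p) := by
  unfold cc
  rw [hU]
  conv_rhs => rw [hV]
  ring

theorem core (p q : ℂ[X]) (n : ℕ) (hn : 1 ≤ n) (hp : p.natDegree = n) (hq : q.natDegree = n)
    (hp0 : p.coeff 0 ≠ 0) (hq0 : q.coeff 0 ≠ 0)
    (hlow : ∀ i, 1 ≤ i → q.coeff i ≠ 0 → (X * derivative p).natTrailingDegree ≤ i)
    (hhigh : ∀ i, i < n → q.coeff i ≠ 0 → i ≤ (C (n : ℂ) * p - X * derivative p).natDegree)
    (S : Set (ℂ × ℂ)) (hS : (Prod.fst '' S).Infinite)
    (he : ∀ x ∈ S, x.2 ≠ 0)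
    (h1 : ∀ x ∈ S, (x.2 * x.1) * (derivative q).eval (x.2 * x.1) * p.eval x.1
      = x.1 * (derivative p).eval x.1 * q.eval (x.2 * x.1))
    (h2 : ∀ x ∈ S, (x.1 / x.2) * (derivative (q.map (starRingEnd ℂ))).eval (x.1 / x.2) * p.eval x.1
      = x.1 * (derivative p).eval x.1 * (q.map (starRingEnd ℂ)).eval (x.1 / x.2)) :
    ∃ x ∈ S, ∃ c : ℂ, ∀ z, q.eval (x.2 * z) = c * p.eval z := by
  have hpne : p ≠ 0 := by rintro rfl; exact hp0 (by simp)
  have hqne : q ≠ 0 := by rintro rfl; exact hq0 (by simp)
  -- reduced factors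
  obtain ⟨V, U, g, hVU, hgV, hgU⟩ :=
    UniqueFactorizationMonoid.exists_reduced_factors p hpne (derivative p)
  have hco : IsCoprime V U := hVU.isCoprime
  have hV : p = g * V := hgV.symm
  have hU : derivative p = g * U := hgU.symm
  have hdp : derivative p ≠ 0 := by
    intro h
    have := natDegree_eq_zero_of_derivative_eq_zero h
    omega
  have hg0 : g ≠ 0 := by rintro rfl; exact hpne (by rw [hV, zero_mul])
  have hU0 : U ≠ 0 := by rintro rfl; exact hdp (by rw [hU, mul_zero])
  have hgc0 : g.coeff 0 ≠ 0 := by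
    intro h
    apply hp0
    rw [hV, mul_coeff_zero, h, zero_mul]
  have hgt : g.natTrailingDegree = 0 := by
    apply natTrailingDegree_eq_zero.2
    exact Or.inr hgc0
  have hqn : q.coeff n ≠ 0 := by rw [← hq]; exact leadingCoeff_ne_zero.2 hqne
  have hpn : p.coeff n ≠ 0 := by rw [← hp]; exact leadingCoeff_ne_zero.2 hpne
  have hW0 : C (n : ℂ) * p - X * derivative p ≠ 0 := by
    intro h
    have h3 := congrArg (fun f => Polynomial.coeff f 0) h
    simp only [coeff_sub, coeff_C_mul, mul_coeff_zero, coeff_X_zero, zero_mul, sub_zero,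
      coeff_zero] at h3
    rcases mul_eq_zero.1 h3 with h4 | h4
    · rw [coeff_C_zero] at h4
      have : n = 0 := by exact_mod_cast h4
      omega
    · exact hp0 h4
  have hcn : cc U V n ≠ 0 := by
    intro h
    have := g_cc p U V g hV hU n
    rw [h, mul_zero] at this
    rcases mul_eq_zero.1 this.symm with h4 | h4
    · exact pow_ne_zero n X_ne_zero h4
    · exact hW0 h4
  have hc0 : cc U V 0 ≠ 0 := by
    intro h
    have := g_cc p U V g hV hU 0
    rw [h, mul_zero] at this
    simp only [pow_zero, one_mul, Nat.cast_zero, C_0, zero_mul, zero_sub] at this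
    exact mul_ne_zero X_ne_zero hdp (neg_eq_zero.1 this.symm)
  have hqc0 : starRingEnd ℂ (q.coeff 0) ≠ 0 := by simpa using hq0
  -- leading coefficients
  have hAn : (AA U V q n).coeff n ≠ 0 := by
    rw [AA_coeff, if_pos le_rfl]
    exact mul_ne_zero (C_ne_zero.2 hqn) hcn
  have hBn : (BB U V q n).coeff n ≠ 0 := by
    rw [BB_coeff, if_pos le_rfl, Nat.sub_self]
    exact mul_ne_zero (C_ne_zero.2 hqc0) hc0
  have hA : AA U V q n ≠ 0 := by intro h; rw [h, coeff_zero] at hAn; exact hAn rfl
  have hB : BB U V q n ≠ 0 := by intro h; rw [h, coeff_zero] at hBn; exact hBn rfl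
  have hAd : (AA U V q n).natDegree = n := by
    apply natDegree_eq_of_le_of_coeff_ne_zero _ hAn
    rw [natDegree_le_iff_coeff_eq_zero]
    intro N hN
    rw [AA_coeff, if_neg (by omega)]
  have hBd : (BB U V q n).natDegree = n := by
    apply natDegree_eq_of_le_of_coeff_ne_zero _ hBn
    rw [natDegree_le_iff_coeff_eq_zero]
    intro N hN
    rw [BB_coeff, if_neg (by omega)]
  have hAl : (AA U V q n).leadingCoeff = C (q.coeff n) * cc U V n := by
    rw [leadingCoeff, hAd, AA_coeff, if_pos le_rfl]
  have hBl : (BB U V q n).leadingCoeff = C (starRingEnd ℂ (q.coeff 0)) * cc U V 0 := by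
    rw [leadingCoeff, hBd, BB_coeff, if_pos le_rfl, Nat.sub_self]
  -- degrees
  have d1 : ∀ i, ((AA U V q n).coeff i).natDegree ≤ (AA U V q n).leadingCoeff.natDegree := by
    intro i
    rw [hAl, AA_coeff, natDegree_C_mul hqn]
    split_ifs with hi
    · by_cases hqi : q.coeff i = 0
      · rw [hqi, C_0, zero_mul, natDegree_zero]; exact Nat.zero_le _
      · rw [natDegree_C_mul hqi]
        rcases Nat.lt_or_eq_of_le hi with hlt | heq
        · by_cases hci : cc U V i = 0
          · rw [hci, natDegree_zero]; exact Nat.zero_le _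
          · have e1 : (g * cc U V i).natDegree = g.natDegree + (cc U V i).natDegree :=
              natDegree_mul hg0 hci
            have e2 : (g * cc U V n).natDegree = g.natDegree + (cc U V n).natDegree :=
              natDegree_mul hg0 hcn
            rw [g_cc p U V g hV hU] at e1 e2
            have e3 : (X ^ n * (C (n : ℂ) * p - X * derivative p)).natDegree
                = n + (C (n : ℂ) * p - X * derivative p).natDegree := by
              rw [natDegree_mul (pow_ne_zero n X_ne_zero) hW0, natDegree_X_pow]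
            have e4 : (X ^ i * (C (i : ℂ) * p - X * derivative p)).natDegree ≤ i + n := by
              refine natDegree_mul_le.trans (add_le_add (natDegree_X_pow i).le ?_)
              refine (natDegree_sub_le _ _).trans (max_le ?_ ?_)
              · exact (natDegree_C_mul_le _ _).trans hp.le
              · refine natDegree_mul_le.trans ?_
                rw [natDegree_X]
                have := natDegree_derivative_le p
                omega
            have e5 := hhigh i hlt hqi
            omega
        · rw [heq]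
    · rw [natDegree_zero]; exact Nat.zero_le _
  have d2 : ∀ j, (BB U V q n).coeff j ≠ 0 → (BB U V q n).leadingCoeff.natTrailingDegree ≤
      ((BB U V q n).coeff j).natTrailingDegree := by
    intro j hj
    rw [hBl]
    rw [BB_coeff] at hj ⊢
    split_ifs at hj ⊢ with hjn
    · have hqj : starRingEnd ℂ (q.coeff (n - j)) ≠ 0 := by
        intro h; rw [h, C_0, zero_mul] at hj; exact hj rfl
      have hcj : cc U V (n - j) ≠ 0 := by
        intro h; rw [h, mul_zero] at hj; exact hj rfl
      have t1 : (C (starRingEnd ℂ (q.coeff 0)) * cc U V 0).natTrailingDegree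
          = (cc U V 0).natTrailingDegree := by
        rw [natTrailingDegree_mul (C_ne_zero.2 hqc0) hc0, natTrailingDegree_C, zero_add]
      have t2 : (C (starRingEnd ℂ (q.coeff (n - j))) * cc U V (n - j)).natTrailingDegree
          = (cc U V (n - j)).natTrailingDegree := by
        rw [natTrailingDegree_mul (C_ne_zero.2 hqj) hcj, natTrailingDegree_C, zero_add]
      rw [t1, t2]
      by_cases hj0 : n - j = 0
      · rw [hj0]
      · have hqj' : q.coeff (n - j) ≠ 0 := by simpa using hqj
        have e1 : (g * cc U V 0).natTrailingDegree = (cc U V 0).natTrailingDegree := by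
          rw [natTrailingDegree_mul hg0 hc0, hgt, zero_add]
        have e2 : (g * cc U V (n - j)).natTrailingDegree = (cc U V (n - j)).natTrailingDegree := by
          rw [natTrailingDegree_mul hg0 hcj, hgt, zero_add]
        rw [← e1, ← e2]
        have e3 : g * cc U V 0 = -(X * derivative p) := by
          rw [g_cc p U V g hV hU]
          simp
        rw [e3, natTrailingDegree_neg]
        refine (hlow (n - j) (by omega) hqj').trans ?_
        have hne : g * cc U V (n - j) ≠ 0 := mul_ne_zero hg0 hcj
        apply le_natTrailingDegree hne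
        intro m hm
        rw [g_cc p U V g hV hU, coeff_X_pow_mul', if_neg (by omega)]
    · exact absurd rfl hj
  have d3 : ∀ r : ℂ, r ≠ 0 → (AA U V q n).leadingCoeff.eval r = 0 →
      (BB U V q n).leadingCoeff.eval r = 0 → False := by
    intro r hr hA' hB'
    rw [hAl, eval_mul, eval_C] at hA'
    rw [hBl, eval_mul, eval_C] at hB'
    have a1 := (mul_eq_zero.1 hA').resolve_left hqn
    have b1 := (mul_eq_zero.1 hB').resolve_left hqc0
    unfold cc at a1 b1
    simp only [eval_mul, eval_pow, eval_X, eval_sub, eval_C, pow_zero, one_mul, Nat.cast_zero,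
      zero_mul, zero_sub, neg_eq_zero] at a1 b1
    have b2 : U.eval r = 0 := (mul_eq_zero.1 b1).resolve_left hr
    have a2 := (mul_eq_zero.1 a1).resolve_left (pow_ne_zero n hr)
    rw [b2, mul_zero, sub_zero] at a2
    have a3 : V.eval r = 0 := (mul_eq_zero.1 a2).resolve_left (by
      have : (n : ℂ) ≠ 0 := by exact_mod_cast (by omega : n ≠ 0)
      exact this)
    obtain ⟨u, v, huv⟩ := hco
    have := congrArg (fun f => Polynomial.eval r f) huv
    simp only [eval_add, eval_mul, a3, b2, mul_zero, add_zero, eval_one] at this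
    exact zero_ne_one this
  -- restrict S
  let Z : Set ℂ := {r | (X * g).eval r = 0}
  have hZ : Z.Finite := by
    have h0 : (X * g) ≠ 0 := mul_ne_zero X_ne_zero hg0
    refine ((X * g).roots.toFinset.finite_toSet).subset ?_
    intro r hr
    simp only [Finset.mem_coe, Multiset.mem_toFinset]
    exact (mem_roots h0).2 hr
  let S1 : Set (ℂ × ℂ) := {x ∈ S | x.1 ∉ Z}
  have hS1 : (Prod.fst '' S1).Infinite := by
    have : (Prod.fst '' S) \ Z ⊆ Prod.fst '' S1 := by
      rintro r ⟨⟨x, hx, rfl⟩, hr⟩
      exact ⟨x, ⟨hx, hr⟩, rfl⟩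
    exact (hS.diff hZ).mono this
  have hx0 : ∀ x ∈ S1, x.1 ≠ 0 ∧ g.eval x.1 ≠ 0 := by
    intro x hx
    have := hx.2
    simp only [Z, Set.mem_setOf_eq, eval_mul, eval_X, mul_eq_zero, not_or] at this
    exact this
  have zA : ∀ x ∈ S1, ev x.1 x.2 (AA U V q n) = 0 := by
    intro x hx
    have h3 := h1 x hx.1
    have h4 := comb q n hq.le (x.2 * x.1) (p.eval x.1) (x.1 * (derivative p).eval x.1)
    rw [h3, sub_self] at h4
    have h5 : g.eval x.1 * ev x.1 x.2 (AA U V q n) = 0 := by
      rw [ev_AA, Finset.mul_sum, h4]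
      refine Finset.sum_congr rfl fun i _ => ?_
      rw [hU]
      conv_rhs => rw [hV]
      simp only [eval_mul]
      rw [mul_pow]
      ring
    exact (mul_eq_zero.1 h5).resolve_left (hx0 x hx).2
  have zB : ∀ x ∈ S1, ev x.1 x.2 (BB U V q n) = 0 := by
    intro x hx
    have hx2 := he x hx.1
    have h3 := h2 x hx.1
    have h4 := comb (q.map (starRingEnd ℂ)) n (natDegree_map_le.trans hq.le) (x.1 / x.2)
      (p.eval x.1) (x.1 * (derivative p).eval x.1)
    rw [h3, sub_self] at h4
    have h5 : g.eval x.1 * ev x.1 x.2 (BB U V q n) = 0 := by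
      have h6 : g.eval x.1 * ev x.1 x.2 (BB U V q n) = x.2 ^ n * 0 := by
        rw [ev_BB, Finset.mul_sum, h4, Finset.mul_sum]
        refine Finset.sum_congr rfl fun i hi => ?_
        rw [Finset.mem_range] at hi
        rw [hU]
        conv_rhs => rw [hV]
        simp only [eval_mul, coeff_map]
        have h7 : x.2 ^ n = x.2 ^ (n - i) * x.2 ^ i := by rw [← pow_add]; congr 1; omega
        rw [h7, div_pow]
        field_simp
      rw [h6, mul_zero]
    exact (mul_eq_zero.1 h5).resolve_left (hx0 x hx).2
  -- irreducible factor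
  obtain ⟨F, hFirr, hFA, S2, hS2, hS2i, hS2z⟩ := fac (AA U V q n) hA S1 hS1 zA
  have hFd : F.natDegree ≠ 0 := by
    intro hd
    rw [eq_C_of_natDegree_eq_zero hd] at hS2z
    have hf0 : F.coeff 0 ≠ 0 := by
      intro h
      rw [eq_C_of_natDegree_eq_zero hd, h, C_0] at hFirr
      exact hFirr.ne_zero rfl
    apply hS2i
    refine ((F.coeff 0).roots.toFinset.finite_toSet).subset ?_
    rintro r ⟨x, hx, rfl⟩
    have := hS2z x hx
    rw [ev_C] at this
    simp only [Finset.mem_coe, Multiset.mem_toFinset]
    exact (mem_roots hf0).2 this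
  have hFB : F ∣ BB U V q n := by
    by_contra hnd
    obtain ⟨D, hD0, hD⟩ := irr F (BB U V q n) hFirr hFd hnd
    apply hS2i
    refine (D.roots.toFinset.finite_toSet).subset ?_
    rintro r ⟨x, hx, rfl⟩
    have := hD x.1 x.2 (hS2z x hx) (zB x (hS2 hx))
    simp only [Finset.mem_coe, Multiset.mem_toFinset]
    exact (mem_roots hD0).2 this
  obtain ⟨a, ha⟩ := alg (AA U V q n) (BB U V q n) F hFA hFB hA hB d1 d2 d3
  choose t ht using ha
  -- the polynomial in e
  let H : ℂ[X] := ∑ i ∈ Finset.range (F.natDegree + 1), C (t i) * X ^ i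
  have hH0 : H ≠ 0 := by
    intro h
    have h3 : H.coeff F.natDegree = t F.natDegree := by
      simp only [H, finset_sum_coeff, coeff_C_mul, coeff_X_pow]
      rw [Finset.sum_eq_single F.natDegree]
      · simp
      · intro b _ hb; rw [if_neg (Ne.symm hb), mul_zero]
      · intro h; simp at h
    rw [h, coeff_zero] at h3
    have h4 := ht F.natDegree
    rw [← h3, C_0, zero_mul] at h4
    exact hFirr.ne_zero (leadingCoeff_eq_zero.1 h4)
  have hHz : ∀ x ∈ S2, H.eval x.2 = 0 := by
    intro x hx
    have h3 := hS2z x hx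
    rw [ev_eq_sum] at h3
    have h4 : x.1 ^ a * H.eval x.2 = 0 := by
      rw [← h3]
      simp only [H, eval_finset_sum, Finset.mul_sum]
      refine Finset.sum_congr rfl fun i _ => ?_
      rw [ht i]
      simp only [eval_mul, eval_C, eval_pow, eval_X]
      ring
    exact (mul_eq_zero.1 h4).resolve_left (pow_ne_zero a (hx0 x (hS2 hx)).1)
  -- pigeonhole
  have hS2inf : S2.Infinite := fun h => hS2i (h.image _)
  obtain ⟨e0, he0⟩ : ∃ e0, (Prod.fst '' {x ∈ S2 | x.2 = e0}).Infinite := by
    by_contra hcon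
    push_neg at hcon
    apply hS2i
    have : Prod.fst '' S2 ⊆ ⋃ e ∈ (H.roots.toFinset : Set ℂ), Prod.fst '' {x ∈ S2 | x.2 = e} := by
      rintro r ⟨x, hx, rfl⟩
      simp only [Set.mem_iUnion]
      refine ⟨x.2, ?_, ⟨x, ⟨hx, rfl⟩, rfl⟩⟩
      simp only [Finset.mem_coe, Multiset.mem_toFinset]
      exact (mem_roots hH0).2 (hHz x hx)
    refine (Set.Finite.biUnion H.roots.toFinset.finite_toSet ?_).subset this
    intro e _
    exact hcon e
  obtain ⟨_, x0, ⟨hx02, hx0e⟩, _⟩ := he0.nonempty
  refine ⟨x0, (hS2 hx02).1, ?_⟩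
  have he00 : e0 ≠ 0 := by rw [← hx0e]; exact he x0 (hS2 hx02).1
  rw [hx0e]
  -- polynomial identity
  let Q : ℂ[X] := q.comp (C e0 * X)
  have hQe : ∀ z, Q.eval z = q.eval (e0 * z) := by intro z; simp [Q]
  have hdQ : derivative Q = C e0 * (derivative q).comp (C e0 * X) := by
    simp only [Q, derivative_comp, derivative_C_mul, derivative_X, mul_one]
  have hQd : Q.natDegree = n := by
    simp only [Q]
    rw [natDegree_comp, natDegree_C_mul_X e0 he00, mul_one, hq]
  have hid : derivative Q * p = derivative p * Q := by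
    have hpoly : X * (derivative Q * p - derivative p * Q) = 0 := by
      apply eq_zero_of_infinite_isRoot
      refine he0.mono ?_
      rintro r ⟨x, ⟨hx, hxe⟩, rfl⟩
      have h3 := h1 x (hS2 hx).1
      rw [hxe] at h3
      simp only [IsRoot, Set.mem_setOf_eq, eval_mul, eval_X, eval_sub, hdQ, hQe, eval_C, eval_comp]
      linear_combination h3
    have := (mul_eq_zero.1 hpoly).resolve_left X_ne_zero
    exact sub_eq_zero.1 this
  obtain ⟨c, hc⟩ := prop_of_wr p Q n hn hp hQd hid
  refine ⟨c, fun z => ?_⟩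
  rw [← hQe, hc, eval_mul, eval_C]

end H654.Bl
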