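import Mathlib
import Pool.Agent.Helper246.BlumLiou

set_option autoImplicit false

namespace H654.Bl

open Polynomial Filter Topology Pool.Agent.Helper246.Blum

theorem gap (p q : ℂ[X]) (hq0 : q.coeff 0 ≠ 0)
    (hM : ∀ᶠ r in 𝓝[>] (0:ℝ), MM (fun z => p.eval z) r = MM (fun z => q.eval z) r) (l : ℕ)
    (h : ∀ j, 1 ≤ j → j < l → p.coeff j = 0) : ∀ j, 1 ≤ j → j < l → q.coeff j = 0 := by
  intro j
  induction j using Nat.strong_induction_on with
  | _ j IH =>
  intro hj hjl
  by_contra hb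
  set b := q.coeff j with hbdef
  set q0 := q.coeff 0 with hq0def
  set p0 := p.coeff 0 with hp0def
  have hnorm : ‖p0‖ = ‖q0‖ := by
    have e1 := MM_tendsto (fun z => p.eval z) p.continuous
    have e2 := MM_tendsto (fun z => q.eval z) q.continuous
    have e3 : Tendsto (MM (fun z => p.eval z)) (𝓝[>] 0) (𝓝 ‖q.eval 0‖) :=
      e2.congr' (by filter_upwards [hM] with r hr; exact hr.symm)
    have := tendsto_nhds_unique e1 e3
    simpa [hp0def, hq0def, coeff_zero_eq_eval_zero] using this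
  obtain ⟨q1, hq1⟩ : X ^ j ∣ q - C q0 := by
    rw [X_pow_dvd_iff]
    intro d hd
    rcases Nat.eq_zero_or_pos d with rfl | hd0
    · simp [hq0def]
    · rw [coeff_sub, coeff_C_ne_zero (by omega), sub_zero]
      exact IH d hd hd0 (by omega)
  obtain ⟨p1, hp1⟩ : X ^ (j + 1) ∣ p - C p0 := by
    rw [X_pow_dvd_iff]
    intro d hd
    rcases Nat.eq_zero_or_pos d with rfl | hd0
    · simp [hp0def]
    · rw [coeff_sub, coeff_C_ne_zero (by omega), sub_zero]
      exact h d hd0 (by omega)
  have hq1e : ∀ z, q.eval z = q0 + z ^ j * q1.eval z := by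
    intro z
    have := congrArg (Polynomial.eval z) hq1
    simp only [eval_sub, eval_C, eval_mul, eval_pow, eval_X] at this
    linear_combination this
  have hp1e : ∀ z, p.eval z = p0 + z ^ (j + 1) * p1.eval z := by
    intro z
    have := congrArg (Polynomial.eval z) hp1
    simp only [eval_sub, eval_C, eval_mul, eval_pow, eval_X] at this
    linear_combination this
  have hb1 : q1.eval 0 = b := by
    rw [← coeff_zero_eq_eval_zero]
    have := congrArg (fun f => Polynomial.coeff f j) hq1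
    simp only [coeff_sub, coeff_X_pow_mul', le_refl, if_true, Nat.sub_self] at this
    rw [← this, coeff_C_ne_zero (by omega), sub_zero]
  have hq0n : (‖q0‖ : ℂ) ≠ 0 := by
    have := norm_ne_zero_iff.2 hq0
    exact_mod_cast this
  obtain ⟨u, hu⟩ := IsAlgClosed.exists_pow_nat_eq ((‖b‖ : ℂ) * q0 / (‖q0‖ * b)) (show 0 < j by omega)
  have hun : ‖u‖ = 1 := by
    have h1 : ‖u‖ ^ j = 1 := by
      rw [← norm_pow, hu, norm_div, norm_mul, norm_mul, Complex.norm_real, Complex.norm_real,
        norm_norm, norm_norm, mul_comm, div_self]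
      exact mul_ne_zero (norm_ne_zero_iff.2 hq0) (norm_ne_zero_iff.2 hb)
    exact (pow_eq_one_iff_of_nonneg (norm_nonneg _) (by omega)).1 h1
  have hmain : ∀ᶠ r : ℝ in 𝓝[>] (0:ℝ), ‖b‖ ≤ ‖q1.eval ((r:ℂ) * u) - b‖ + r * MM (fun z => p1.eval z) r := by
    filter_upwards [hM, self_mem_nhdsWithin] with r hr hr'
    have hr0 : (0:ℝ) < r := hr'
    obtain ⟨_, x, hx, hx'⟩ := MM_spec (fun z => p.eval z) p.continuous r hr0.le
    have e1 : MM (fun z => p.eval z) r ≤ ‖p0‖ + r ^ (j + 1) * MM (fun z => p1.eval z) r := by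
      rw [← hx']
      show ‖p.eval x‖ ≤ _
      rw [hp1e x]
      refine (norm_add_le _ _).trans ?_
      rw [norm_mul, norm_pow, hx]
      have := (MM_spec (fun z => p1.eval z) p1.continuous r hr0.le).1 x hx
      have h2 : r ^ (j + 1) * ‖p1.eval x‖ ≤ r ^ (j + 1) * MM (fun z => p1.eval z) r :=
        mul_le_mul_of_nonneg_left this (pow_nonneg hr0.le _)
      linarith
    have e2 : ‖q0‖ + r ^ j * ‖b‖ - r ^ j * ‖q1.eval (r * u) - b‖ ≤ MM (fun z => q.eval z) r := by
      have h3 := (MM_spec (fun z => q.eval z) q.continuous r hr0.le).1 (r * u) (by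
        rw [norm_mul, hun, mul_one, Complex.norm_real, Real.norm_of_nonneg hr0.le])
      refine le_trans ?_ h3
      show _ ≤ ‖q.eval (r * u)‖
      rw [hq1e]
      have h4 : q0 + (r * u) ^ j * q1.eval (r * u)
          = q0 * (1 + r ^ j * ‖b‖ / ‖q0‖ : ℂ) + (r * u) ^ j * (q1.eval (r * u) - b) := by
        rw [mul_pow, hu]
        field_simp
        ring
      rw [h4]
      have h5 : ‖q0 * (1 + r ^ j * ‖b‖ / ‖q0‖ : ℂ)‖ = ‖q0‖ + r ^ j * ‖b‖ := by
        have h6 : (1 + r ^ j * ‖b‖ / ‖q0‖ : ℂ) = ((1 + r ^ j * ‖b‖ / ‖q0‖ : ℝ) : ℂ) := by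
          push_cast; ring
        rw [norm_mul, h6, Complex.norm_real, Real.norm_of_nonneg (by positivity)]
        have := norm_ne_zero_iff.2 hq0
        field_simp
      have h7 : ‖((r:ℂ) * u) ^ j * (q1.eval (r * u) - b)‖ = r ^ j * ‖q1.eval (r * u) - b‖ := by
        rw [norm_mul, norm_pow, norm_mul, hun, mul_one, Complex.norm_real,
          Real.norm_of_nonneg hr0.le]
      have h8 := norm_sub_norm_le (q0 * (1 + r ^ j * ‖b‖ / ‖q0‖ : ℂ))
        (-(((r:ℂ) * u) ^ j * (q1.eval (r * u) - b)))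
      rw [norm_neg, sub_neg_eq_add, h5, h7] at h8
      exact h8
    rw [hr] at e1
    rw [hnorm] at e1
    have e3 : r ^ j * ‖b‖ ≤ r ^ j * (‖q1.eval (r * u) - b‖ + r * MM (fun z => p1.eval z) r) := by
      have : r ^ (j + 1) = r ^ j * r := pow_succ r j
      rw [this] at e1
      nlinarith
    exact le_of_mul_le_mul_left e3 (pow_pos hr0 j)
  have ht : Tendsto (fun r : ℝ => ‖q1.eval (r * u) - b‖ + r * MM (fun z => p1.eval z) r)
      (𝓝[>] 0) (𝓝 (0 + 0 * ‖p1.eval 0‖)) := by
    apply Tendsto.add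
    · have hc : Continuous (fun r : ℝ => ‖q1.eval (r * u) - b‖) := by
        have : Continuous (fun r : ℝ => (r : ℂ) * u) := Complex.continuous_ofReal.mul continuous_const
        exact ((q1.continuous.comp this).sub continuous_const).norm
      have h1 := (hc.tendsto 0).mono_left (nhdsWithin_le_nhds (s := Set.Ioi (0:ℝ)))
      simpa [hb1] using h1
    · exact (tendsto_id.mono_left nhdsWithin_le_nhds).mul (MM_tendsto _ p1.continuous)
  rw [zero_mul, add_zero] at ht
  have := ge_of_tendsto ht hmain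
  exact hb (norm_le_zero_iff.1 this)

end H654.Bl
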