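import Mathlib
import Pool.Agent.H654.Bl.Core
import Pool.Agent.H654.Bl.An
import Pool.Agent.H654.Bl.Gap

set_option autoImplicit false

namespace H654.Bl

open Polynomial Filter Topology Pool.Agent.Helper246.Blum

/-- the case of nonzero constant terms and equal degrees -/
theorem main0 (p q : ℂ[X]) (n : ℕ) (hn : 1 ≤ n) (hp : p.natDegree = n) (hq : q.natDegree = n)
    (hp0 : p.coeff 0 ≠ 0) (hq0 : q.coeff 0 ≠ 0)
    (hM : ∀ r : ℝ, 0 < r → MM (fun z => p.eval z) r = MM (fun z => q.eval z) r)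
    (r₁ r₂ : ℝ) (h0 : 0 ≤ r₁) (h12 : r₁ < r₂)
    (hray : ∀ r : ℝ, r₁ < r → r < r₂ → MM (fun z => p.eval z) r = ‖p.eval (r : ℂ)‖) :
    ∃ e c : ℂ, ‖e‖ = 1 ∧ ‖c‖ = 1 ∧ ∀ z, q.eval (e * z) = c * p.eval z := by
  have hpne : p ≠ 0 := by rintro rfl; exact hp0 (by simp)
  have hqne : q ≠ 0 := by rintro rfl; exact hq0 (by simp)
  have hdp : derivative p ≠ 0 := by
    intro h
    have := natDegree_eq_zero_of_derivative_eq_zero h
    omega
  have hMs : ∀ᶠ r in 𝓝[>] (0:ℝ), MM (fun z => p.eval z) r = MM (fun z => q.eval z) r := by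
    filter_upwards [self_mem_nhdsWithin] with r hr
    exact hM r hr
  have hlow : ∀ i, 1 ≤ i → q.coeff i ≠ 0 → (X * derivative p).natTrailingDegree ≤ i := by
    intro i hi hqi
    by_contra hlt
    push_neg at hlt
    apply hqi
    refine gap p q hq0 hMs (i + 1) ?_ i hi (by omega)
    intro j hj hji
    have h1 : (X * derivative p).coeff j = 0 :=
      coeff_eq_zero_of_lt_natTrailingDegree (by omega)
    obtain ⟨k, rfl⟩ : ∃ k, j = k + 1 := Nat.exists_eq_succ_of_ne_zero (by omega)
    rw [coeff_X_mul, coeff_derivative] at h1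
    exact (mul_eq_zero.1 h1).resolve_right (by exact_mod_cast Nat.succ_ne_zero k)
  have hhigh : ∀ i, i < n → q.coeff i ≠ 0 →
      i ≤ (C (n : ℂ) * p - X * derivative p).natDegree := by
    intro i hi hqi
    by_contra hlt
    push_neg at hlt
    apply hqi
    have hMr : ∀ᶠ r in 𝓝[>] (0:ℝ), MM (fun z => p.reverse.eval z) r
        = MM (fun z => q.reverse.eval z) r := by
      filter_upwards [self_mem_nhdsWithin] with r hr
      have hr0 : (0:ℝ) < r := hr
      rw [MM_reverse p r hr0, MM_reverse q r hr0, hM _ (inv_pos.2 hr0), hp, hq]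
    have hqr0 : q.reverse.coeff 0 ≠ 0 := by
      rw [coeff_zero_reverse]; exact leadingCoeff_ne_zero.2 hqne
    have h2 := gap p.reverse q.reverse hqr0 hMr (n - i + 1) (by
      intro j hj hji
      rw [coeff_reverse, hp, revAt_le (by omega)]
      have h1 : (C (n : ℂ) * p - X * derivative p).coeff (n - j) = 0 :=
        coeff_eq_zero_of_natDegree_lt (by omega)
      have h3 : (X * derivative p).coeff (n - j) = ((n - j : ℕ) : ℂ) * p.coeff (n - j) := by
        cases hk : n - j with
        | zero => simp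
        | succ k => rw [coeff_X_mul, coeff_derivative]; push_cast; ring
      rw [coeff_sub, coeff_C_mul, h3] at h1
      have h4 : (((n : ℕ) : ℂ) - ((n - j : ℕ) : ℂ)) * p.coeff (n - j) = 0 := by
        linear_combination h1
      refine (mul_eq_zero.1 h4).resolve_left ?_
      rw [Nat.cast_sub (by omega)]
      have : (j : ℂ) ≠ 0 := by exact_mod_cast (by omega : j ≠ 0)
      simpa using this) (n - i) (by omega) (by omega)
    rw [coeff_reverse, hq, revAt_le (by omega), show n - (n - i) = i by omega] at h2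
    exact h2
  -- the set of pairs
  let S : Set (ℂ × ℂ) := {x | ∃ r : ℝ, r₁ < r ∧ r < r₂ ∧ x.1 = (r : ℂ) ∧ ‖x.2‖ = 1 ∧
    ‖q.eval (x.2 * r)‖ = MM (fun z => q.eval z) r}
  have hS : (Prod.fst '' S).Infinite := by
    have h1 : ((fun r : ℝ => (r : ℂ)) '' Set.Ioo r₁ r₂).Infinite :=
      (Set.Ioo_infinite h12).image (Complex.ofReal_injective.injOn)
    refine h1.mono ?_
    rintro _ ⟨r, hr, rfl⟩
    have hr0 : 0 < r := lt_of_le_of_lt h0 hr.1
    obtain ⟨_, x, hx, hx'⟩ := MM_spec (fun z => q.eval z) q.continuous r hr0.le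
    have hrc : (r : ℂ) ≠ 0 := by exact_mod_cast hr0.ne'
    refine ⟨((r : ℂ), x / r), ⟨r, hr.1, hr.2, rfl, ?_, ?_⟩, rfl⟩
    · show ‖x / (r : ℂ)‖ = 1
      rw [norm_div, hx, Complex.norm_real, Real.norm_of_nonneg hr0.le, div_self hr0.ne']
    · show ‖q.eval (x / (r : ℂ) * r)‖ = _
      rw [div_mul_cancel₀ _ hrc]
      exact hx'
  have hpr : ∀ r : ℝ, r₁ < r → r < r₂ → p.eval (r : ℂ) ≠ 0 := by
    intro r hr hr' h
    have hr0 : 0 < r := lt_of_le_of_lt h0 hr
    have h1 := hray r hr hr'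
    rw [h, norm_zero] at h1
    have h2 : ∀ x : ℂ, ‖x‖ = r → p.eval x = 0 := by
      intro x hx
      have h3 := (MM_spec (fun z => p.eval z) p.continuous r hr0.le).1 x hx
      rw [h1] at h3
      exact norm_le_zero_iff.1 h3
    apply hpne
    apply eq_zero_of_infinite_isRoot
    have h4 : (Metric.sphere (0:ℂ) r).Infinite := by
      have h5 : ((fun t : ℝ => (r : ℂ) * Complex.exp (t * Complex.I)) '' Set.Ioo (0:ℝ) 1).Infinite := by
        apply (Set.Ioo_infinite zero_lt_one).image
        intro a ha b hb hab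
        have h6 : Complex.exp (a * Complex.I) = Complex.exp (b * Complex.I) :=
          mul_left_cancel₀ (by exact_mod_cast hr0.ne') hab
        rw [Complex.exp_eq_exp_iff_exists_int] at h6
        obtain ⟨k, hk⟩ := h6
        have h7 : (a : ℂ) = b + k * (2 * Real.pi) := by
          have := congrArg (fun z => z * (-Complex.I)) hk
          ring_nf at this
          rw [Complex.I_sq] at this
          linear_combination this
        have h8 : a = b + k * (2 * Real.pi) := by exact_mod_cast h7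
        have hpi := Real.pi_gt_three
        have hk0 : k = 0 := by
          by_contra hk0
          rcases lt_or_gt_of_ne hk0 with h9 | h9
          · have : (k : ℝ) ≤ -1 := by exact_mod_cast (by omega : k ≤ -1)
            nlinarith [ha.1, ha.2, hb.1, hb.2]
          · have : (1 : ℝ) ≤ k := by exact_mod_cast h9
            nlinarith [ha.1, ha.2, hb.1, hb.2]
        rw [h8, hk0]; simp
      refine h5.mono ?_
      rintro _ ⟨t, _, rfl⟩
      rw [mem_sphere_zero_iff_norm, norm_mul, Complex.norm_exp_ofReal_mul_I, mul_one,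
        Complex.norm_real, Real.norm_of_nonneg hr0.le]
    refine h4.mono ?_
    intro x hx
    rw [mem_sphere_zero_iff_norm] at hx
    exact h2 x hx
  have hAn : ∀ x ∈ S, (x.2 ≠ 0) ∧
      ((x.2 * x.1) * (derivative q).eval (x.2 * x.1) * p.eval x.1
        = x.1 * (derivative p).eval x.1 * q.eval (x.2 * x.1)) ∧
      ((x.1 / x.2) * (derivative (q.map (starRingEnd ℂ))).eval (x.1 / x.2) * p.eval x.1
      = x.1 * (derivative p).eval x.1 * (q.map (starRingEnd ℂ)).eval (x.1 / x.2)) := by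
    rintro ⟨a, e⟩ ⟨r, hr, hr', ha, he, hmx⟩
    simp only at ha he hmx ⊢
    subst ha
    have hr0 : 0 < r := lt_of_le_of_lt h0 hr
    refine ⟨by intro h; rw [h, norm_zero] at he; exact zero_ne_one he, ?_⟩
    have hMr : MM (fun z => q.eval z) r = ‖p.eval (r : ℂ)‖ := by rw [← hM r hr0]; exact hray r hr hr'
    refine an p q r hr0 e he (hpr r hr hr') ?_ (by rw [hmx, hMr]) ?_ ?_
    · have h1 : ∀ᶠ ρ in 𝓝 r, ρ ∈ Set.Ioo r₁ r₂ := Ioo_mem_nhds hr hr'
      filter_upwards [h1] with ρ hρ
      have hρ0 : 0 < ρ := lt_of_le_of_lt h0 hρ.1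
      rw [← hray ρ hρ.1 hρ.2, hM ρ hρ0]
      exact (MM_spec (fun z => q.eval z) q.continuous ρ hρ0.le).1 _ (by
        rw [norm_mul, he, one_mul, Complex.norm_real, Real.norm_of_nonneg hρ0.le])
    · intro z hz
      rw [hmx]
      exact (MM_spec (fun z => q.eval z) q.continuous r hr0.le).1 z hz
    · intro z hz
      rw [← hray r hr hr']
      exact (MM_spec (fun z => p.eval z) p.continuous r hr0.le).1 z hz
  obtain ⟨x, hx, c, hc⟩ := core p q n hn hp hq hp0 hq0 hlow hhigh S hS (fun x hx => (hAn x hx).1)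
    (fun x hx => (hAn x hx).2.1) (fun x hx => (hAn x hx).2.2)
  obtain ⟨r, hr, hr', ha, he, hmx⟩ := hx
  have hr0 : 0 < r := lt_of_le_of_lt h0 hr
  refine ⟨x.2, c, he, ?_, hc⟩
  have h1 := hc (r : ℂ)
  have h2 : ‖q.eval (x.2 * r)‖ = ‖p.eval (r : ℂ)‖ := by
    rw [hmx, ← hM r hr0]; exact hray r hr hr'
  rw [h1, norm_mul] at h2
  exact mul_right_cancel₀ (norm_ne_zero_iff.2 (hpr r hr hr')) (by rw [h2, one_mul])

end H654.Bl
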