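import Mathlib
import Pool.Agent.H654.Bl.Main

set_option autoImplicit false

namespace H654.Bl

open Polynomial Filter Topology Pool.Agent.Helper246.Blum

theorem deg_eq (P Q : ℂ[X]) (hP : P ≠ 0) (hQ : Q ≠ 0)
    (hM : ∀ r : ℝ, 0 < r → MM (fun z => P.eval z) r = MM (fun z => Q.eval z) r) :
    P.natDegree = Q.natDegree := by
  have hP0 : P.reverse.coeff 0 ≠ 0 := by
    rw [coeff_zero_reverse]; exact leadingCoeff_ne_zero.2 hP
  have hQ0 : Q.reverse.coeff 0 ≠ 0 := by
    rw [coeff_zero_reverse]; exact leadingCoeff_ne_zero.2 hQ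
  symm
  apply order_eq (fun z => P.reverse.eval z) (fun z => Q.reverse.eval z) P.reverse.continuous
    Q.reverse.continuous (by rw [← coeff_zero_eq_eval_zero]; exact hP0)
    (by rw [← coeff_zero_eq_eval_zero]; exact hQ0)
  filter_upwards [self_mem_nhdsWithin] with r hr'
  have hr0 : (0:ℝ) < r := hr'
  rw [MM_reverse P r hr0, MM_reverse Q r hr0, hM _ (inv_pos.2 hr0)]
  ring

theorem zero_of_MM (p : ℂ[X]) (h : ∀ r : ℝ, 0 < r → MM (fun z => p.eval z) r = 0) : p = 0 := by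
  apply eq_zero_of_infinite_isRoot
  have h1 : ((fun r : ℝ => (r : ℂ)) '' Set.Ioi 0).Infinite :=
    (Set.Ioi_infinite 0).image (Complex.ofReal_injective.injOn)
  refine h1.mono ?_
  rintro _ ⟨r, hr, rfl⟩
  have hr0 : (0:ℝ) < r := hr
  have h2 := (MM_spec (fun z => p.eval z) p.continuous r hr0.le).1 (r : ℂ) (by
    rw [Complex.norm_real, Real.norm_of_nonneg hr0.le])
  rw [h r hr0] at h2
  exact norm_le_zero_iff.1 h2

theorem main1 (p q : ℂ[X]) (hpne : p ≠ 0) (ω : ℂ) (hω : ‖ω‖ = 1)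
    (hM : ∀ r : ℝ, 0 < r → MM (fun z => p.eval z) r = MM (fun z => q.eval z) r)
    (r₁ r₂ : ℝ) (h0 : 0 ≤ r₁) (h12 : r₁ < r₂)
    (hray : ∀ r : ℝ, r₁ < r → r < r₂ → MM (fun z => p.eval z) r = ‖p.eval (r * ω)‖) :
    ∃ ε η : ℂ, ‖ε‖ = 1 ∧ ‖η‖ = 1 ∧ ∀ z, q.eval z = ε * p.eval (η * z) := by
  have hω0 : ω ≠ 0 := by intro h; rw [h, norm_zero] at hω; exact zero_ne_one hω
  have hqne : q ≠ 0 := by
    rintro rfl
    apply hpne
    apply zero_of_MM
    intro r hr
    rw [hM r hr]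
    obtain ⟨_, x, _, hx⟩ := MM_spec (fun z => (0:ℂ[X]).eval z) (0:ℂ[X]).continuous r hr.le
    rw [← hx]; simp
  -- rotate
  let p1 : ℂ[X] := p.comp (C ω * X)
  have hp1e : ∀ z, p1.eval z = p.eval (ω * z) := by intro z; simp [p1]
  have hp1M : ∀ r : ℝ, 0 < r → MM (fun z => p1.eval z) r = MM (fun z => p.eval z) r := by
    intro r hr
    have := MM_eq_of (fun z => p1.eval z) (fun z => p.eval z) p1.continuous p.continuous r r 1
      hr.le hr.le zero_le_one
      (fun x hx => ⟨ω * x, by rw [norm_mul, hω, one_mul, hx], by rw [hp1e, one_mul]⟩)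
      (fun y hy => ⟨ω⁻¹ * y, by rw [norm_mul, norm_inv, hω, inv_one, one_mul, hy], by
        rw [hp1e, one_mul, mul_inv_cancel_left₀ hω0]⟩)
    rw [this, one_mul]
  have hp1ne : p1 ≠ 0 := by
    intro h
    apply hpne
    apply zero_of_MM
    intro r hr
    rw [← hp1M r hr, h]
    obtain ⟨_, x, _, hx⟩ := MM_spec (fun z => (0:ℂ[X]).eval z) (0:ℂ[X]).continuous r hr.le
    rw [← hx]; simp
  obtain ⟨P, hP, hPn⟩ := Polynomial.exists_eq_pow_rootMultiplicity_mul_and_not_dvd p1 hp1ne 0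
  obtain ⟨Q, hQ, hQn⟩ := Polynomial.exists_eq_pow_rootMultiplicity_mul_and_not_dvd q hqne 0
  rw [C_0, sub_zero] at hP hPn hQ hQn
  set m := p1.rootMultiplicity 0 with hm
  set l := q.rootMultiplicity 0 with hl
  have hP0 : P.coeff 0 ≠ 0 := fun h => hPn (X_dvd_iff.2 h)
  have hQ0 : Q.coeff 0 ≠ 0 := fun h => hQn (X_dvd_iff.2 h)
  have e2 : (fun z => p1.eval z) = fun z => z ^ m * P.eval z := by
    funext z; conv_lhs => rw [hP]
    simp
  have e3 : (fun z => q.eval z) = fun z => z ^ l * Q.eval z := by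
    funext z; conv_lhs => rw [hQ]
    simp
  have hMP : ∀ r : ℝ, 0 < r → r ^ m * MM (fun z => P.eval z) r = r ^ l * MM (fun z => Q.eval z) r := by
    intro r hr
    have h1 := (hp1M r hr).trans (hM r hr)
    rwa [e2, e3, MM_pow_mul _ P.continuous m r hr.le, MM_pow_mul _ Q.continuous l r hr.le] at h1
  have hml : m = l := order_eq _ _ P.continuous Q.continuous
    (by rw [← coeff_zero_eq_eval_zero]; exact hP0)
    (by rw [← coeff_zero_eq_eval_zero]; exact hQ0) m l (by
      filter_upwards [self_mem_nhdsWithin] with r hr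
      exact hMP r hr)
  have hMP2 : ∀ r : ℝ, 0 < r → MM (fun z => P.eval z) r = MM (fun z => Q.eval z) r := by
    intro r hr
    have h1 := hMP r hr
    rw [← hml] at h1
    exact mul_left_cancel₀ (pow_ne_zero m hr.ne') h1
  have hPne : P ≠ 0 := by rintro rfl; exact hP0 (by simp)
  have hQne : Q ≠ 0 := by rintro rfl; exact hQ0 (by simp)
  have hdeg := deg_eq P Q hPne hQne hMP2
  have hp1P : ∀ z, p1.eval z = z ^ m * P.eval z := fun z => congrFun e2 z
  have hqQ : ∀ z, q.eval z = z ^ l * Q.eval z := fun z => congrFun e3 z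
  by_cases hn : P.natDegree = 0
  · -- constants
    have hPC := eq_C_of_natDegree_eq_zero hn
    have hQC := eq_C_of_natDegree_eq_zero (hdeg ▸ hn : Q.natDegree = 0)
    set a := P.coeff 0
    set b := Q.coeff 0
    have hab : ‖a‖ = ‖b‖ := by
      have h1 := hMP2 1 one_pos
      obtain ⟨_, x, _, hx⟩ := MM_spec (fun z => P.eval z) P.continuous 1 zero_le_one
      obtain ⟨_, y, _, hy⟩ := MM_spec (fun z => Q.eval z) Q.continuous 1 zero_le_one
      rw [← hx, ← hy] at h1
      simp only [hPC, hQC, eval_C] at h1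
      exact h1
    refine ⟨b / a, ω, by rw [norm_div, hab, div_self (norm_ne_zero_iff.2 hQ0)], hω, ?_⟩
    intro z
    rw [← hp1e, hqQ, hp1P, ← hml, hPC, hQC, eval_C, eval_C]
    field_simp
  · obtain ⟨e, c, he, hc, h⟩ := main0 P Q P.natDegree (by omega) rfl hdeg.symm hP0 hQ0 hMP2 r₁ r₂ h0
      h12 (by
        intro r hr hr'
        have hr0 : 0 < r := lt_of_le_of_lt h0 hr
        have h1 := hray r hr hr'
        rw [← hp1M r hr0, e2, MM_pow_mul _ P.continuous m r hr0.le, mul_comm (r:ℂ) ω, ← hp1e, hp1P,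
          norm_mul, norm_pow, Complex.norm_real, Real.norm_of_nonneg hr0.le] at h1
        exact mul_left_cancel₀ (pow_ne_zero m hr0.ne') h1)
    have he0 : e ≠ 0 := by intro h; rw [h, norm_zero] at he; exact zero_ne_one he
    refine ⟨e ^ m * c, ω * e⁻¹, by rw [norm_mul, norm_pow, he, hc]; simp,
      by rw [norm_mul, norm_inv, hω, he]; simp, ?_⟩
    intro z
    have h1 := h (e⁻¹ * z)
    rw [mul_inv_cancel_left₀ he0] at h1
    rw [mul_assoc ω, ← hp1e, hqQ, hp1P, ← hml, h1, mul_pow, inv_pow]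
    field_simp

theorem nonneg_ray (p : ℂ[X]) (hp : ∀ i, ∃ a : ℝ, 0 ≤ a ∧ p.coeff i = a) (r : ℝ) (hr : 0 < r) :
    MM (fun z => p.eval z) r = ‖p.eval ((r : ℂ) * 1)‖ := by
  obtain ⟨h1, x, hx, hx'⟩ := MM_spec (fun z => p.eval z) p.continuous r hr.le
  rw [mul_one]
  apply le_antisymm
  · rw [← hx']
    show ‖p.eval x‖ ≤ _
    choose a ha hpa using hp
    have e1 : p.eval (r : ℂ) = ((∑ i ∈ Finset.range (p.natDegree + 1), a i * r ^ i : ℝ) : ℂ) := by
      rw [eval_eq_sum_range]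
      push_cast
      exact Finset.sum_congr rfl fun i _ => by rw [hpa]
    have e2 : 0 ≤ ∑ i ∈ Finset.range (p.natDegree + 1), a i * r ^ i :=
      Finset.sum_nonneg fun i _ => mul_nonneg (ha i) (pow_nonneg hr.le i)
    rw [e1, Complex.norm_real, Real.norm_of_nonneg e2, eval_eq_sum_range]
    refine (norm_sum_le _ _).trans (Finset.sum_le_sum fun i _ => ?_)
    rw [norm_mul, norm_pow, hx, hpa, Complex.norm_real, Real.norm_of_nonneg (ha i)]
  · exact h1 (r : ℂ) (by rw [Complex.norm_real, Real.norm_of_nonneg hr.le])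

end H654.Bl
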